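import Mathlib
import Pool.Agent.Run7.h104.Coin.P7

set_option autoImplicit false

/-!
# Limit sets of coincidence sequences of the class `S`

Every nonempty closed subset of the unit circle which is nowhere dense in the circle (it may have positive length) is the
set of limit points of a coincidence sequence for `S`. The proof applies the sufficient condition of the hand-in
`SeparatedSequences` to points `r n ζ n`, where the `ζ n` are points of the circle outside the set, isolated from each other.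
-/

namespace Pool.Agent.Results.MP_8199af_an.LimitSets

open Complex Metric Set

/-- The class `S`: analytic and injective in the unit disc, `f 0 = 0`, `f' 0 = 1`. -/
def ClassS (f : ℂ → ℂ) : Prop :=
  DifferentiableOn ℂ f (ball 0 1) ∧ InjOn f (ball 0 1) ∧ f 0 = 0 ∧ deriv f 0 = 1

/-- A sequence of pairwise distinct points of the unit disc at which two different functions
of the class `S` agree. -/
def CoincidenceSequence (z : ℕ → ℂ) : Prop :=
  (∀ n, z n ∈ ball (0:ℂ) 1) ∧ Function.Injective z ∧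
    ∃ f g : ℂ → ℂ, ClassS f ∧ ClassS g ∧ (∃ x ∈ ball (0:ℂ) 1, f x ≠ g x) ∧
      ∀ n, f (z n) = g (z n)

/-- The set of the limit points of a sequence. -/
def limitPoints (z : ℕ → ℂ) : Set ℂ :=
  {x | ∀ ε : ℝ, 0 < ε → ∀ N : ℕ, ∃ n, N ≤ n ∧ dist (z n) x < ε}

/-- Every nonempty closed nowhere dense subset of the unit circle is the set of the limit points of a
coincidence sequence for `S`. -/
theorem result (K : Set ℂ) (hK : K ⊆ sphere (0:ℂ) 1) (hKc : IsClosed K) (hKn : K.Nonempty)
    (hnd : ∀ x ∈ K, ∀ ε : ℝ, 0 < ε → ∃ y ∈ sphere (0:ℂ) 1, y ∉ K ∧ dist y x < ε) :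
    ∃ z : ℕ → ℂ, CoincidenceSequence z ∧ limitPoints z = K := by
  have hnd' : ∀ x ∈ K, ∀ ε : ℝ, 0 < ε → ∃ y : ℂ, ‖y‖ = 1 ∧ y ∉ K ∧ dist y x < ε := by
    intro x hx ε hε
    obtain ⟨y, hy1, hy2, hy3⟩ := hnd x hx ε hε
    exact ⟨y, by simpa using hy1, hy2, hy3⟩
  obtain ⟨z, ⟨h1, h2, h3⟩, h4⟩ := Pool.Agent.Run7.h104.Coin.limit_set hKc hKn hnd'
  refine ⟨z, ⟨fun n => by simpa using h1 n, h2, h3⟩, ?_⟩
  ext x
  exact (h4 x).symm

end Pool.Agent.Results.MP_8199af_an.LimitSets
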