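import Mathlib
import Pool.Agent.Run7.h104.Coin.P6

set_option autoImplicit false

/-!
# A sufficient condition for coincidence sequences of the class `S`

`z n` pairwise distinct points of the disc, `0 < d n ≤ |1 - conj (z n) z m|` for all `m ≠ n`. If the sum of
`log (4 / d n) / log (4 / (1 - |z n|))` converges, two different functions of `S` agree at all `z n`.

Method: `f' / c` and `g' / c` have positive real parts after rotations by right angles to each other; `f - g` is a
function with bounded derivative plus a sum of `w n * log (1 - conj (z n) z)`, where the `w n`, which have to lie in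
one quadrant, are found by a contraction. (Consequence, proved in `Run7.h104.Coin.radii`: if `ζ n` are points of the
circle, each at positive distance from all the others, then `r n ζ n` is a coincidence sequence for all radii
`s n ≤ r n < 1`, with suitable `s n < 1`.)
-/

namespace Pool.Agent.Results.MP_8199af_an.SeparatedSequences

open Complex Metric Set ComplexConjugate

/-- The class `S`: analytic and injective in the unit disc, `f 0 = 0`, `f' 0 = 1`. -/
def ClassS (f : ℂ → ℂ) : Prop :=
  DifferentiableOn ℂ f (ball 0 1) ∧ InjOn f (ball 0 1) ∧ f 0 = 0 ∧ deriv f 0 = 1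

/-- A sequence of pairwise distinct points of the unit disc at which two different functions
of the class `S` agree. -/
def CoincidenceSequence (z : ℕ → ℂ) : Prop :=
  (∀ n, z n ∈ ball (0:ℂ) 1) ∧ Function.Injective z ∧
    ∃ f g : ℂ → ℂ, ClassS f ∧ ClassS g ∧ (∃ x ∈ ball (0:ℂ) 1, f x ≠ g x) ∧
      ∀ n, f (z n) = g (z n)

/-- A sequence `z n` of pairwise distinct points of the disc such that
`∑ log (4 / d n) / log (4 / (1 - |z n|))` converges, where `0 < d n ≤ |1 - conj (z n) z m|` for
all `m ≠ n`, is a coincidence sequence. -/
theorem result (z : ℕ → ℂ) (hz : ∀ n, z n ∈ ball (0:ℂ) 1) (hinj : Function.Injective z)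
    (d : ℕ → ℝ) (hd : ∀ n, 0 < d n) (hsep : ∀ m n, m ≠ n → d n ≤ ‖1 - conj (z n) * z m‖)
    (hsum : Summable fun n => Real.log (4 / d n) / Real.log (4 / (1 - ‖z n‖))) :
    CoincidenceSequence z := by
  have hz' : ∀ n, ‖z n‖ < 1 := fun n => by simpa using hz n
  exact ⟨hz, hinj, Pool.Agent.Run7.h104.Coin.coincidence hz' hinj hd hsep hsum⟩

end Pool.Agent.Results.MP_8199af_an.SeparatedSequences
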